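import Pool.Agent.Helper9.SK.St
import Pool.Agent.Helper48.BK.M_APZ

/-!
# Project SK, module LOW: the model is large for every even number
-/

set_option autoImplicit false

noncomputable section

namespace Pool.Agent.Helper36.SK

open Finset ArithmeticFunction MeasureTheory
open Pool.Agent.Helper48.BK (Pz Vz lz num_APZ mem_Pz_APZ card_Pz_APZ Vz_pos_APZ)
open Pool.Agent.Helper60.GP (IsB II Err JJ)
open Pool.Agent.Helper15.AB (Th)
open Pool.Agent.Helper9.SK

private lemma rho_prod (h : StRho) (v : ℕ) (T : Finset ℕ) (hT : ∀ p ∈ T, p.Prime) :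
    rho v (∏ p ∈ T, p) = ∏ p ∈ T, rho v p := by
  induction T using Finset.induction_on with
  | empty => simpa using h.2.1 v
  | insert p T hp ih =>
    rw [Finset.prod_insert hp, Finset.prod_insert hp]
    have hT' : ∀ q ∈ T, q.Prime := fun q hq => hT q (Finset.mem_insert_of_mem hq)
    have hpp := hT p (Finset.mem_insert_self p T)
    rw [h.1 v p (∏ q ∈ T, q) hpp.one_lt.le
      (Nat.one_le_iff_ne_zero.2 (Finset.prod_ne_zero_iff.2 fun q hq => (hT' q hq).ne_zero))
      (Nat.Coprime.prod_right fun q hq =>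
        (Nat.coprime_primes hpp (hT' q hq)).2 fun h => hp (h ▸ hq)), ih hT']

private lemma tot_prod (T : Finset ℕ) (hT : ∀ p ∈ T, p.Prime) :
    (Nat.totient (∏ p ∈ T, p) : ℝ) = ∏ p ∈ T, ((p : ℝ) - 1) := by
  induction T using Finset.induction_on with
  | empty => simp
  | insert p T hp ih =>
    rw [Finset.prod_insert hp, Finset.prod_insert hp]
    have hT' : ∀ q ∈ T, q.Prime := fun q hq => hT q (Finset.mem_insert_of_mem hq)
    have hpp := hT p (Finset.mem_insert_self p T)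
    rw [Nat.totient_mul (Nat.Coprime.prod_right fun q hq =>
        (Nat.coprime_primes hpp (hT' q hq)).2 fun h => hp (h ▸ hq)), Nat.cast_mul, ih hT',
      Nat.totient_prime hpp, Nat.cast_sub hpp.one_lt.le, Nat.cast_one]

private lemma gg_prod (h : StRho) (v : ℕ) (T : Finset ℕ) (hT : ∀ p ∈ T, p.Prime) :
    (rho v (∏ p ∈ T, p) : ℝ) / (Nat.totient (∏ p ∈ T, p) : ℝ) ^ 2 = ∏ p ∈ T, gg v p := by
  rw [rho_prod h v T hT, tot_prod T hT, ← Finset.prod_pow]
  push_cast
  rw [← Finset.prod_div_distrib]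
  rfl

private lemma rho_le (h : StRho) {v : ℕ} (hv : Even v) {p : ℕ} (hp : p.Prime) :
    (rho v p : ℝ) ≤ 4 * ((p : ℝ) - 1) := by
  obtain ⟨-, -, h2, h3, h5⟩ := h
  have hp2 : (2 : ℝ) ≤ p := by exact_mod_cast hp.two_le
  rcases Nat.lt_or_ge p 5 with hlt | hge
  · have h4 : p = 2 ∨ p = 3 := by
      have := hp.two_le
      interval_cases p
      · exact Or.inl rfl
      · exact Or.inr rfl
      · exact absurd hp (by norm_num)
    rcases h4 with rfl | rfl
    · rw [h2 v hv]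
      norm_num
    · have h6 : (rho v 3 : ℝ) ≤ 3 := by exact_mod_cast h3 v
      push_cast
      linarith
  · have := h5 v p hp hge
    nlinarith

private lemma rho_le_prod (h : StRho) {v : ℕ} (hv : Even v) (T : Finset ℕ)
    (hT : ∀ p ∈ T, p.Prime) (R : ℕ) (hR : T.card ≤ R) :
    (rho v (∏ p ∈ T, p) : ℝ) ≤ 4 ^ R * (Nat.totient (∏ p ∈ T, p) : ℝ) := by
  rw [rho_prod h v T hT, tot_prod T hT]
  push_cast
  have h0 : ∀ p ∈ T, (0 : ℝ) ≤ (p : ℝ) - 1 := fun p hp => by
    have : (1 : ℝ) < p := by exact_mod_cast (hT p hp).one_lt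
    linarith
  calc ∏ p ∈ T, (rho v p : ℝ) ≤ ∏ p ∈ T, (4 * ((p : ℝ) - 1)) :=
        Finset.prod_le_prod (fun p _ => Nat.cast_nonneg _) fun p hp => rho_le h hv (hT p hp)
    _ = 4 ^ T.card * ∏ p ∈ T, ((p : ℝ) - 1) := by
        rw [Finset.prod_mul_distrib, Finset.prod_const]
    _ ≤ 4 ^ R * ∏ p ∈ T, ((p : ℝ) - 1) := by
        refine mul_le_mul_of_nonneg_right ?_ (Finset.prod_nonneg h0)
        exact pow_le_pow_right₀ (by norm_num) hR

private lemma prod_le (z R : ℕ) (hz : 1 ≤ z) (T : Finset ℕ) (hT : ∀ p ∈ T, p ≤ z)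
    (hR : T.card ≤ R) : ∏ p ∈ T, p ≤ z ^ R := by
  calc ∏ p ∈ T, p ≤ ∏ p ∈ T, z := Finset.prod_le_prod' hT
    _ = z ^ T.card := by rw [Finset.prod_const]
    _ ≤ z ^ R := Nat.pow_le_pow_right hz hR

/-- the sum over sets of primes is at most the sum over integers -/
private lemma sum_sets (z R N : ℕ) (hz : 1 ≤ z) (hN : z ^ R ≤ N) (e : ℕ → ℝ) (he : ∀ d, 0 ≤ e d) :
    ∑ T ∈ (Pz z).powerset.filter (fun T => T.card ≤ R), e (∏ p ∈ T, p) ≤
      ∑ d ∈ Icc 1 N, e d := by
  have hmem : ∀ T ∈ (Pz z).powerset.filter (fun T => T.card ≤ R), ∀ p ∈ T, p ≤ z ∧ p.Prime := by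
    intro T hT p hp
    exact (mem_Pz_APZ z p).1 (Finset.mem_powerset.1 (Finset.mem_filter.1 hT).1 hp)
  have hinj : Set.InjOn (fun T : Finset ℕ => ∏ p ∈ T, p)
      ((Pz z).powerset.filter (fun T => T.card ≤ R) : Set (Finset ℕ)) := by
    intro T hT T' hT' h
    have h1 := Nat.primeFactors_prod (s := T) fun p hp => (hmem T hT p hp).2
    have h2 := Nat.primeFactors_prod (s := T') fun p hp => (hmem T' hT' p hp).2
    rw [← h1, ← h2]
    exact congrArg _ h
  rw [← Finset.sum_image (f := e) (g := fun T : Finset ℕ => ∏ p ∈ T, p) hinj]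
  refine Finset.sum_le_sum_of_subset_of_nonneg ?_ fun d _ _ => he d
  intro d hd
  obtain ⟨T, hT, rfl⟩ := Finset.mem_image.1 hd
  rw [Finset.mem_Icc]
  refine ⟨Nat.one_le_iff_ne_zero.2 (Finset.prod_ne_zero_iff.2 fun p hp => (hmem T hT p hp).2.ne_zero), ?_⟩
  exact (prod_le z R hz T (fun p hp => (hmem T hT p hp).1) (Finset.mem_filter.1 hT).2).trans hN

private lemma det (hRho : StRho) (hDis : StDis) (hBon : StBon) (ω : ℝ → ℝ) (hω : IsB ω)
    (x y S1 S2 : ℝ) (v r z : ℕ) (e e' : ℕ → ℝ) (hx1 : 1 ≤ x) (hxy : x ≤ y) (hv : Even v)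
    (hz : 2 ≤ z) (hD : (z : ℝ) ^ (r + 1) ≤ x ^ (1 / 4 : ℝ))
    (he0 : ∀ d, 0 ≤ e d) (he : ∀ d : ℕ, 1 ≤ d → ∀ b : ℤ, IsCoprime b (d : ℤ) → Err ω x d b ≤ e d)
    (hes : ∑ d ∈ Icc 1 ⌊x ^ (1 / 4 : ℝ)⌋₊, e d ≤ S1)
    (he0' : ∀ d, 0 ≤ e' d)
    (he' : ∀ d : ℕ, 1 ≤ d → ∀ b : ℤ, IsCoprime b (d : ℤ) → Err ω y d b ≤ e' d)
    (hes' : ∑ d ∈ Icc 1 ⌊y ^ (1 / 4 : ℝ)⌋₊, e' d ≤ S2)
    (hTx : 0 ≤ Th ω x) (hTy : 0 ≤ Th ω y) :
    Th ω x * Th ω y * (∏ p ∈ Pz z, (1 - gg v p) -
      2 * ∑ T ∈ (Pz z).powerset.filter (fun T => r + 1 ≤ T.card), ∏ p ∈ T, gg v p) -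
    (4 ^ (r + 1) * (S1 * Th ω y + 4 * x * Real.log (3 * x) * S2) +
      3 * (z : ℝ) ^ (r + 1) * ((r + 1 : ℕ) * (Real.log (3 * x) * Th ω y + Real.log (3 * y) * Th ω x))) ≤
    Vz z * rS ω x y (lz z) v := by
  have hlx : 0 ≤ Real.log (3 * x) := Real.log_nonneg (by linarith)
  have hly : 0 ≤ Real.log (3 * y) := Real.log_nonneg (by linarith)
  set Z : ℝ := Real.log (3 * x) * Th ω y + Real.log (3 * y) * Th ω x with hZ
  have hZ0 : 0 ≤ Z := by positivity
  set E : ℕ → ℝ := fun d => 4 ^ (r + 1) * (e d * Th ω y + 4 * x * Real.log (3 * x) * e' d) +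
    (r + 1 : ℕ) * Z with hE
  have hx4 : x ^ (1 / 4 : ℝ) ≤ x := by
    calc x ^ (1 / 4 : ℝ) ≤ x ^ (1 : ℝ) := Real.rpow_le_rpow_of_exponent_le hx1 (by norm_num)
      _ = x := Real.rpow_one x
  have hbon := hBon ω x y v r z E hω (by
    intro T hT hTr
    have hTp : ∀ p ∈ T, p ≤ z ∧ p.Prime := fun p hp =>
      (mem_Pz_APZ z p).1 (Finset.mem_powerset.1 hT hp)
    have hTp2 : ∀ p ∈ T, p.Prime := fun p hp => (hTp p hp).2
    have hd1 : 1 ≤ ∏ p ∈ T, p :=
      Nat.one_le_iff_ne_zero.2 (Finset.prod_ne_zero_iff.2 fun p hp => (hTp2 p hp).ne_zero)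
    have hdz : ∏ p ∈ T, p ≤ z ^ (r + 1) :=
      prod_le z (r + 1) (by omega) T (fun p hp => (hTp p hp).1) hTr
    have hdx : ((∏ p ∈ T, p : ℕ) : ℝ) ≤ x := by
      have h1 : ((∏ p ∈ T, p : ℕ) : ℝ) ≤ (z : ℝ) ^ (r + 1) := by exact_mod_cast hdz
      exact h1.trans (hD.trans hx4)
    have h := hDis ω x y (e (∏ p ∈ T, p)) (e' (∏ p ∈ T, p)) (4 ^ (r + 1)) v (∏ p ∈ T, p) hω hx1 hxy
      hd1 hdx (by positivity) (he _ hd1) (he' _ hd1) (rho_le_prod hRho hv T hTp2 (r + 1) hTr)
    rw [gg_prod hRho v T hTp2, Nat.primeFactors_prod hTp2] at h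
    refine h.trans ?_
    show _ ≤ 4 ^ (r + 1) * (e (∏ p ∈ T, p) * Th ω y + 4 * x * Real.log (3 * x) * e' (∏ p ∈ T, p)) +
      (r + 1 : ℕ) * Z
    have hc : (T.card : ℝ) ≤ ((r + 1 : ℕ) : ℝ) := by exact_mod_cast hTr
    have := mul_le_mul_of_nonneg_right hc hZ0
    linarith)
  have hsum : ∑ T ∈ (Pz z).powerset.filter (fun T => T.card ≤ r + 1), E (∏ p ∈ T, p) ≤
      4 ^ (r + 1) * (S1 * Th ω y + 4 * x * Real.log (3 * x) * S2) +
      3 * (z : ℝ) ^ (r + 1) * ((r + 1 : ℕ) * Z) := by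
    have hzN : ((z ^ (r + 1) : ℕ) : ℝ) ≤ x ^ (1 / 4 : ℝ) := by push_cast; exact hD
    have hN1 : z ^ (r + 1) ≤ ⌊x ^ (1 / 4 : ℝ)⌋₊ := Nat.le_floor hzN
    have hN2 : z ^ (r + 1) ≤ ⌊y ^ (1 / 4 : ℝ)⌋₊ := Nat.le_floor
      (hzN.trans (Real.rpow_le_rpow (by linarith) hxy (by norm_num)))
    have h1 := (sum_sets z (r + 1) _ (by omega) hN1 e he0).trans hes
    have h2 := (sum_sets z (r + 1) _ (by omega) hN2 e' he0').trans hes'
    have h3 := num_APZ (Pz z) (r + 1) z (by omega) (card_Pz_APZ z)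
    simp only [hE]
    rw [Finset.sum_add_distrib, ← Finset.mul_sum, Finset.sum_add_distrib, ← Finset.sum_mul,
      ← Finset.mul_sum, Finset.sum_const, nsmul_eq_mul]
    have h4 := mul_le_mul_of_nonneg_right h1 hTy
    have h5 : 4 * x * Real.log (3 * x) *
        ∑ T ∈ (Pz z).powerset.filter (fun T => T.card ≤ r + 1), e' (∏ p ∈ T, p) ≤
        4 * x * Real.log (3 * x) * S2 := mul_le_mul_of_nonneg_left h2 (by positivity)
    have h6 : (0 : ℝ) ≤ ((r + 1 : ℕ) : ℝ) * Z := by positivity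
    have h7 := mul_le_mul_of_nonneg_right h3 h6
    have h8 : (4 : ℝ) ^ (r + 1) * ((∑ T ∈ (Pz z).powerset.filter (fun T => T.card ≤ r + 1),
        e (∏ p ∈ T, p)) * Th ω y + 4 * x * Real.log (3 * x) *
        ∑ T ∈ (Pz z).powerset.filter (fun T => T.card ≤ r + 1), e' (∏ p ∈ T, p)) ≤
        4 ^ (r + 1) * (S1 * Th ω y + 4 * x * Real.log (3 * x) * S2) :=
      mul_le_mul_of_nonneg_left (by linarith) (by positivity)
    linarith
  linarith

open Filter Topology Asymptotics in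
private lemma ev (a J c X1 K1 : ℝ) (ha : 0 < a) (hJ : 0 < J) (hc : 0 < c) (B : ℕ) :
    ∀ᶠ L : ℝ in atTop, (3 ≤ L ∧ 1 ≤ Real.log L) ∧ X1 ≤ Real.exp (a * L) ∧
      10 ≤ Real.exp (3 * (a * L)) ∧
      (24 * B + 28) * Real.log L * (B * Real.log L) ≤ a * L / 8 ∧ K1 ≤ L ∧
      24 * J * (24 * B + 28) * L ^ 4 ≤ Real.exp (7 / 8 * (a * L)) ∧
      4 * Real.exp 24 * (B : ℝ) ^ 8 / c ≤ L ∧
      16 * (B * Real.log L) ^ 8 / (J ^ 2 * c) ≤ L := by
  have h1 : Tendsto (fun L : ℝ => a * L) atTop atTop := tendsto_id.const_mul_atTop ha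
  have h2 : Tendsto (fun L : ℝ => Real.exp (a * L)) atTop atTop := Real.tendsto_exp_atTop.comp h1
  have h3 : Tendsto (fun L : ℝ => Real.exp (3 * (a * L))) atTop atTop :=
    Real.tendsto_exp_atTop.comp (h1.const_mul_atTop (by norm_num))
  have e1 := Real.tendsto_log_atTop.eventually_ge_atTop 1
  have e2 := h2.eventually_ge_atTop X1
  have e3 := h3.eventually_ge_atTop 10
  set k1 : ℝ := a / (8 * ((24 * B + 28) * (B + 1))) with hk1
  have hk1' : 0 < k1 := by positivity
  have e4 := (Real.isLittleO_pow_log_id_atTop (n := 2)).def hk1'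
  set k2 : ℝ := 1 / (24 * J * (24 * B + 28)) with hk2
  have hk2' : 0 < k2 := by positivity
  have e5 := (isLittleO_pow_exp_pos_mul_atTop (k := 4) (b := 7 / 8 * a) (by positivity)).def hk2'
  set k3 : ℝ := J ^ 2 * c / (16 * ((B : ℝ) ^ 8 + 1)) with hk3
  have hk3' : 0 < k3 := by positivity
  have e6 := (Real.isLittleO_pow_log_id_atTop (n := 8)).def hk3'
  filter_upwards [eventually_ge_atTop 3, e1, e2, e3, e4, e5, e6, eventually_ge_atTop K1,
    eventually_ge_atTop (4 * Real.exp 24 * (B : ℝ) ^ 8 / c)] with L h3 g1 g2 g3 g4 g5 g6 g7 g8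
  have hL0 : 0 < L := by linarith
  rw [id, Real.norm_of_nonneg (by positivity), Real.norm_of_nonneg hL0.le] at g4
  rw [id, Real.norm_of_nonneg (by positivity), Real.norm_of_nonneg hL0.le] at g6
  rw [Real.norm_of_nonneg (by positivity), Real.norm_of_nonneg (Real.exp_nonneg _)] at g5
  refine ⟨⟨h3, g1⟩, g2, g3, ?_, g7, ?_, g8, ?_⟩
  · have hB : (B : ℝ) ≤ B + 1 := by linarith
    have h4 : (24 * B + 28) * Real.log L * (B * Real.log L) ≤
        ((24 * B + 28) * (B + 1)) * Real.log L ^ 2 := by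
      have : 0 ≤ (24 * (B : ℝ) + 28) * Real.log L ^ 2 := by positivity
      nlinarith
    refine h4.trans ?_
    have h5 : ((24 * (B : ℝ) + 28) * (B + 1)) * Real.log L ^ 2 ≤
        ((24 * (B : ℝ) + 28) * (B + 1)) * (k1 * L) := mul_le_mul_of_nonneg_left g4 (by positivity)
    refine h5.trans (le_of_eq ?_)
    rw [hk1]
    field_simp
  · have h4 : 24 * J * (24 * B + 28) * L ^ 4 ≤ 24 * J * (24 * B + 28) *
        (k2 * Real.exp (7 / 8 * a * L)) := mul_le_mul_of_nonneg_left g5 (by positivity)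
    refine h4.trans (le_of_eq ?_)
    rw [hk2]
    have : 7 / 8 * a * L = 7 / 8 * (a * L) := by ring
    rw [this]
    field_simp
  · rw [div_le_iff₀ (by positivity), mul_pow]
    have h4 : (B : ℝ) ^ 8 * Real.log L ^ 8 ≤ ((B : ℝ) ^ 8 + 1) * (k3 * L) := by
      have h5 : (B : ℝ) ^ 8 * Real.log L ^ 8 ≤ ((B : ℝ) ^ 8 + 1) * Real.log L ^ 8 := by
        have : (0 : ℝ) ≤ Real.log L ^ 8 := by positivity
        nlinarith
      exact h5.trans (mul_le_mul_of_nonneg_left g6 (by positivity))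
    have h6 : ((B : ℝ) ^ 8 + 1) * (k3 * L) * 16 = L * (J ^ 2 * c) := by
      rw [hk3]
      field_simp
    nlinarith

private lemma Vz_le (z : ℕ) : Vz z ≤ 1 := by
  refine Finset.prod_le_one (fun p hp => ?_) fun p hp => ?_
  · have h1 : (1 : ℝ) < p := by exact_mod_cast ((mem_Pz_APZ z p).1 hp).2.one_lt
    rw [sub_nonneg, div_le_one (by linarith)]
    exact h1.le
  · have : (0 : ℝ) ≤ 1 / p := by positivity
    linarith

theorem hLOW (hRho : StRho) (hDis : StDis) (hBon : StBon) (hPrd : StPrd) (hEer : StEer)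
    (hPNT : Pool.Agent.Helper60.GP.StPNT) : StLow := by
  intro ω hω hJ κ hκ0 hκ1 B
  obtain ⟨J, hJd⟩ : ∃ J, J = JJ ω := ⟨_, rfl⟩
  rw [← hJd] at hJ
  set a := κ / 10 with had
  have ha : 0 < a := by positivity
  have ha1 : a < 1 / 10 := by rw [had]; linarith
  obtain ⟨c, hc, hP1, hP2⟩ := hPrd
  obtain ⟨x1, hx1⟩ := hPNT ω hω (J / 2) (by positivity)
  rw [← hJd] at hx1
  obtain ⟨A', hA'⟩ : ∃ A' : ℕ, A' = 80 * B + 100 := ⟨_, rfl⟩
  obtain ⟨x2, hx2⟩ := hEer ω hω A'
  have hev := ev a J c (max x1 x2) (2 * Real.exp 3 * (2 * J + 4) / a ^ A') ha hJ hc B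
  have ht : Filter.Tendsto (fun X : ℕ => Real.log (X : ℝ)) Filter.atTop Filter.atTop :=
    Real.tendsto_log_atTop.comp tendsto_natCast_atTop_atTop
  obtain ⟨X₀, hX₀⟩ := Filter.eventually_atTop.1 (ht.eventually hev)
  refine ⟨max X₀ 1, fun X z v hX hz hzL hv => ?_⟩
  have hX1 : 1 ≤ X := (le_max_right _ _).trans hX
  have hXpos : (0 : ℝ) < X := by exact_mod_cast hX1
  obtain ⟨⟨hL3, hl1⟩, c1, c2, c3, c4, c5, c6, c7⟩ := hX₀ X ((le_max_left _ _).trans hX)
  set L := Real.log (X : ℝ) with hL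
  set l := Real.log L with hl
  have hL0 : 0 < L := by linarith
  have hl0 : 0 < l := by linarith
  have hlL : l ≤ L := by
    have := Real.log_le_sub_one_of_pos hL0
    linarith
  -- the scales
  have hx : xx κ X = Real.exp (a * L) := by
    rw [xx, Real.rpow_def_of_pos hXpos, mul_comm]
  have hy : yy κ X = Real.exp (4 * (a * L)) / 10 := by
    rw [yy, Real.rpow_def_of_pos hXpos]
    congr 2
    rw [had]
    ring
  rw [hx, hy]
  set x := Real.exp (a * L) with hxd
  set y := Real.exp (4 * (a * L)) / 10 with hyd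
  have haL : 0 < a * L := by positivity
  have hx1' : 1 ≤ x := Real.one_le_exp haL.le
  have hx0 : 0 < x := by linarith
  have hxy : x ≤ y := by
    have h4 : Real.exp (4 * (a * L)) = x * Real.exp (3 * (a * L)) := by
      rw [hxd, ← Real.exp_add]; ring_nf
    rw [hyd, h4]
    nlinarith
  have hy0 : 0 < y := by linarith
  have hlogx : Real.log x = a * L := Real.log_exp _
  have hlogy : a * L ≤ Real.log y := by
    rw [← hlogx]
    exact Real.log_le_log hx0 hxy
  have hlog3x : Real.log (3 * x) ≤ L := by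
    rw [Real.log_mul (by norm_num) hx0.ne', hlogx]
    have h3 : Real.log 3 ≤ 2 := by
      have := Real.log_le_sub_one_of_pos (show (0 : ℝ) < 3 by norm_num)
      linarith
    have e1 := mul_le_mul_of_nonneg_right ha1.le hL0.le
    linarith only [e1, h3, hL3]
  have hlog3y : Real.log (3 * y) ≤ L := by
    have h1 : 3 * y ≤ Real.exp (4 * (a * L)) := by
      rw [hyd]
      have := Real.exp_pos (4 * (a * L))
      linarith
    have h2 := Real.log_le_log (by positivity) h1
    rw [Real.log_exp] at h2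
    have e1 := mul_le_mul_of_nonneg_right ha1.le hL0.le
    linarith only [e1, h2, hL0]
  -- the number `z`
  have hz0 : (0 : ℝ) < z := by
    have : 0 < z := by omega
    exact_mod_cast this
  have hz2 : (2 : ℝ) ≤ z := by exact_mod_cast hz
  have hlz0 : 0 < Real.log z := Real.log_pos (by linarith)
  have hlz : Real.log z ≤ B * l := by
    have h1 := Real.log_le_log hz0 hzL
    rwa [Real.log_pow] at h1
  have hBl : 0 < B * l := by linarith
  have hB0 : (0 : ℝ) < B := by
    by_contra h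
    push Not at h
    nlinarith
  -- the number `r`
  set r : ℕ := ⌈(24 * B + 26) * l⌉₊ with hr
  have hr1 : (24 * B + 26) * l ≤ r := Nat.le_ceil _
  have hr2 : ((r + 1 : ℕ) : ℝ) ≤ (24 * B + 26) * l + 2 := by
    have := Nat.ceil_lt_add_one (a := (24 * B + 26) * l) (by positivity)
    push_cast
    linarith
  have hr3 : ((r + 1 : ℕ) : ℝ) ≤ (24 * B + 28) * l := by
    have e1 : (24 * (B : ℝ) + 28) * l = (24 * B + 26) * l + 2 * l := by ring
    linarith only [e1, hr2, hl1]
  have hzr : (z : ℝ) ^ (r + 1) ≤ Real.exp (a * L / 8) := by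
    have h1 : (z : ℝ) ^ (r + 1) = Real.exp ((r + 1 : ℕ) * Real.log z) := by
      rw [Real.exp_nat_mul, Real.exp_log hz0]
    rw [h1]
    refine Real.exp_le_exp.2 ?_
    calc ((r + 1 : ℕ) : ℝ) * Real.log z ≤ (24 * B + 28) * l * (B * l) :=
          mul_le_mul hr3 hlz hlz0.le (by positivity)
      _ ≤ a * L / 8 := c3
  have hD : (z : ℝ) ^ (r + 1) ≤ x ^ (1 / 4 : ℝ) := by
    refine hzr.trans ?_
    rw [hxd, ← Real.exp_mul]
    refine Real.exp_le_exp.2 ?_
    linarith
  -- the errors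
  have hxx1 : max x1 x2 ≤ x := c1
  obtain ⟨e, he0, he, hes⟩ := hx2 x ((le_max_right _ _).trans hxx1)
  obtain ⟨e', he0', he', hes'⟩ := hx2 y (((le_max_right _ _).trans hxx1).trans hxy)
  have hT1 := abs_le.1 (hx1 x ((le_max_left _ _).trans hxx1))
  have hT2 := abs_le.1 (hx1 y (((le_max_left _ _).trans hxx1).trans hxy))
  have hTx1 : J / 2 * x ≤ Th ω x := by linarith [hT1.1]
  have hJx : 0 ≤ J * x := by positivity
  have hJy : 0 ≤ J * y := by positivity
  have hTx2 : Th ω x ≤ 2 * J * x := by linarith [hT1.2]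
  have hTy1 : J / 2 * y ≤ Th ω y := by linarith [hT2.1]
  have hTy2 : Th ω y ≤ 2 * J * y := by linarith [hT2.2]
  have hTx0 : 0 ≤ Th ω x := le_trans (by positivity) hTx1
  have hTy0 : 0 ≤ Th ω y := le_trans (by positivity) hTy1
  have key := det hRho hDis hBon ω hω x y _ _ v r z e e' hx1' hxy hv hz hD he0 he hes he0' he' hes'
    hTx0 hTy0
  have hlog3x0 : 0 ≤ Real.log (3 * x) := Real.log_nonneg (by linarith)
  have hlog3y0 : 0 ≤ Real.log (3 * y) := Real.log_nonneg (by linarith)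
  -- first error
  have err1 : 4 ^ (r + 1) * (x / Real.log x ^ A' * Th ω y + 4 * x * Real.log (3 * x) *
      (y / Real.log y ^ A')) ≤ x * y / (2 * L ^ 2) := by
    have h4 : (4 : ℝ) ^ (r + 1) ≤ Real.exp 3 * L ^ (34 * B + 37) := by
      have h5 : (4 : ℝ) ^ (r + 1) = Real.exp ((r + 1 : ℕ) * Real.log 4) := by
        rw [Real.exp_nat_mul, Real.exp_log (by norm_num)]
      have h6 : L ^ (34 * B + 37) = Real.exp ((34 * B + 37 : ℕ) * l) := by
        rw [Real.exp_nat_mul, Real.exp_log hL0]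
      have h7 : Real.log 4 ≤ 1.4 := by
        have : (4 : ℝ) = 2 ^ 2 := by norm_num
        rw [this, Real.log_pow]
        have := Real.log_two_lt_d9
        push_cast
        linarith
      rw [h5, h6, ← Real.exp_add]
      refine Real.exp_le_exp.2 ?_
      calc ((r + 1 : ℕ) : ℝ) * Real.log 4 ≤ ((24 * B + 26) * l + 2) * 1.4 :=
            mul_le_mul hr2 h7 (Real.log_nonneg (by norm_num)) (by positivity)
        _ ≤ 3 + ((34 * B + 37 : ℕ) : ℝ) * l := by
            push_cast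
            have e1 := mul_nonneg hB0.le hl0.le
            linarith only [e1, hl0]
    have h8 : x / Real.log x ^ A' * Th ω y + 4 * x * Real.log (3 * x) * (y / Real.log y ^ A') ≤
        (2 * J + 4) * L * (x * y) / (a * L) ^ A' := by
      have h9 : x / Real.log x ^ A' * Th ω y ≤ x / (a * L) ^ A' * (2 * J * y) := by
        rw [hlogx]
        exact mul_le_mul_of_nonneg_left hTy2 (by positivity)
      have h10 : y / Real.log y ^ A' ≤ y / (a * L) ^ A' := by
        refine div_le_div_of_nonneg_left hy0.le (by positivity) ?_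
        exact pow_le_pow_left₀ haL.le hlogy _
      have h11 : 4 * x * Real.log (3 * x) * (y / Real.log y ^ A') ≤ 4 * x * L * (y / (a * L) ^ A') :=
        mul_le_mul (mul_le_mul_of_nonneg_left hlog3x (by positivity)) h10 (by
          have : 0 < Real.log y := by linarith
          positivity) (by positivity)
      have h12 : x / (a * L) ^ A' * (2 * J * y) ≤ x / (a * L) ^ A' * (2 * J * y) * L :=
        le_mul_of_one_le_right (by positivity) (by linarith)
      calc _ ≤ x / (a * L) ^ A' * (2 * J * y) * L + 4 * x * L * (y / (a * L) ^ A') := by linarith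
        _ = (2 * J + 4) * L * (x * y) / (a * L) ^ A' := by ring
    have h13 : 0 ≤ (2 * J + 4) * L * (x * y) / (a * L) ^ A' := by positivity
    calc 4 ^ (r + 1) * (x / Real.log x ^ A' * Th ω y + 4 * x * Real.log (3 * x) *
          (y / Real.log y ^ A')) ≤ 4 ^ (r + 1) * ((2 * J + 4) * L * (x * y) / (a * L) ^ A') :=
          mul_le_mul_of_nonneg_left h8 (by positivity)
      _ ≤ Real.exp 3 * L ^ (34 * B + 37) * ((2 * J + 4) * L * (x * y) / (a * L) ^ A') :=
          mul_le_mul_of_nonneg_right h4 h13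
      _ ≤ x * y / (2 * L ^ 2) := by
          have h14 : 2 * Real.exp 3 * (2 * J + 4) ≤ a ^ A' * L ^ (46 * B + 60) := by
            have h15 : 2 * Real.exp 3 * (2 * J + 4) ≤ L * a ^ A' := (div_le_iff₀ (by positivity)).1 c4
            have h16 : L ≤ L ^ (46 * B + 60) := le_self_pow₀ (by linarith) (by omega)
            have h17 : L * a ^ A' ≤ L ^ (46 * B + 60) * a ^ A' :=
              mul_le_mul_of_nonneg_right h16 (by positivity)
            linarith
          have h18 : (a * L) ^ A' = a ^ A' * L ^ (46 * B + 60) * L ^ (34 * B + 40) := by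
            rw [mul_pow, mul_assoc, ← pow_add]
            congr 2
            rw [hA']
            ring
          rw [← mul_div_assoc, div_le_div_iff₀ (by positivity) (by positivity), h18]
          have h19 : Real.exp 3 * L ^ (34 * B + 37) * ((2 * J + 4) * L * (x * y)) * (2 * L ^ 2) =
              2 * Real.exp 3 * (2 * J + 4) * (L ^ (34 * B + 40) * (x * y)) := by
            have : L ^ (34 * B + 40) = L ^ (34 * B + 37) * L * L ^ 2 := by ring
            rw [this]
            ring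
          rw [h19]
          have h20 := mul_le_mul_of_nonneg_right h14
            (show 0 ≤ L ^ (34 * B + 40) * (x * y) by positivity)
          linarith
  -- second error
  have err2 : 3 * (z : ℝ) ^ (r + 1) * ((r + 1 : ℕ) * (Real.log (3 * x) * Th ω y +
      Real.log (3 * y) * Th ω x)) ≤ x * y / (2 * L ^ 2) := by
    have h1 : Real.log (3 * x) * Th ω y + Real.log (3 * y) * Th ω x ≤ 4 * J * L * y := by
      have h2 : Real.log (3 * x) * Th ω y ≤ L * (2 * J * y) := mul_le_mul hlog3x hTy2 hTy0 hL0.le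
      have h3 : Real.log (3 * y) * Th ω x ≤ L * (2 * J * y) := by
        refine mul_le_mul hlog3y (hTx2.trans ?_) hTx0 hL0.le
        exact mul_le_mul_of_nonneg_left hxy (by positivity)
      linarith
    have h4 : ((r + 1 : ℕ) : ℝ) ≤ (24 * B + 28) * L := hr3.trans
      (mul_le_mul_of_nonneg_left hlL (by positivity))
    have h5 : ((r + 1 : ℕ) : ℝ) * (Real.log (3 * x) * Th ω y + Real.log (3 * y) * Th ω x) ≤
        (24 * B + 28) * L * (4 * J * L * y) := mul_le_mul h4 h1 (by positivity) (by positivity)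
    have h6 : 3 * (z : ℝ) ^ (r + 1) * ((r + 1 : ℕ) * (Real.log (3 * x) * Th ω y +
        Real.log (3 * y) * Th ω x)) ≤ 3 * Real.exp (a * L / 8) *
        ((24 * B + 28) * L * (4 * J * L * y)) :=
      mul_le_mul (by linarith) h5 (by positivity) (by positivity)
    refine h6.trans ?_
    have h7 : x = Real.exp (7 / 8 * (a * L)) * Real.exp (a * L / 8) := by
      rw [hxd, ← Real.exp_add]; ring_nf
    rw [le_div_iff₀ (by positivity), h7]
    have h8 : 3 * Real.exp (a * L / 8) * ((24 * B + 28) * L * (4 * J * L * y)) * (2 * L ^ 2) =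
        24 * J * (24 * B + 28) * L ^ 4 * (Real.exp (a * L / 8) * y) := by ring
    rw [h8]
    have h9 := mul_le_mul_of_nonneg_right c5 (show 0 ≤ Real.exp (a * L / 8) * y by positivity)
    linarith
  -- the main term
  have hP1' := hP1 v z hv hz
  have hP2' := hP2 v z (r + 1) hv hz
  set P := ∏ p ∈ Pz z, (1 - gg v p) with hP
  set Tl := ∑ T ∈ (Pz z).powerset.filter (fun T => r + 1 ≤ T.card), ∏ p ∈ T, gg v p with hTl
  have hlz8 : Real.log z ^ 8 ≤ (B * l) ^ 8 := pow_le_pow_left₀ hlz0.le hlz 8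
  have htail : 2 * Tl ≤ c / 2 / Real.log z ^ 8 := by
    have h1 : Tl ≤ Real.exp (24 - 26 * l) := by
      refine hP2'.trans (Real.exp_le_exp.2 ?_)
      push_cast
      have e1 : (24 * (B : ℝ) + 26) * l = 24 * (B * l) + 26 * l := by ring
      linarith only [e1, hr1, hlz]
    have h2 : Real.exp (24 - 26 * l) = Real.exp 24 / L ^ 26 := by
      rw [Real.exp_sub]
      congr 1
      have : L ^ 26 = Real.exp ((26 : ℕ) * l) := by
        rw [Real.exp_nat_mul, Real.exp_log hL0]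
      rw [this]
      norm_num
    have h3 : c / 2 / (B * L) ^ 8 ≤ c / 2 / Real.log z ^ 8 := by
      refine div_le_div_of_nonneg_left (by positivity) (by positivity) ?_
      refine hlz8.trans (pow_le_pow_left₀ hBl.le ?_ 8)
      exact mul_le_mul_of_nonneg_left hlL hB0.le
    refine le_trans ?_ h3
    refine (mul_le_mul_of_nonneg_left (h1.trans h2.le) (by norm_num)).trans ?_
    rw [← mul_div_assoc, div_div, div_le_div_iff₀ (by positivity) (by positivity), mul_pow]
    have h4 : 4 * Real.exp 24 * (B : ℝ) ^ 8 ≤ L * c := (div_le_iff₀ hc).1 c6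
    have h5 : L * c ≤ L ^ 18 * c :=
      mul_le_mul_of_nonneg_right (le_self_pow₀ (by linarith) (by norm_num)) hc.le
    have h6 := mul_le_mul_of_nonneg_right (h4.trans h5) (show 0 ≤ L ^ 8 by positivity)
    have h7 : L ^ 18 * c * L ^ 8 = c * L ^ 26 := by ring
    rw [h7] at h6
    calc 2 * Real.exp 24 * (2 * ((B : ℝ) ^ 8 * L ^ 8)) = 4 * Real.exp 24 * (B : ℝ) ^ 8 * L ^ 8 := by ring
      _ ≤ c * L ^ 26 := h6
  have hPT : 2 * (2 / (J ^ 2 / 4)) / (2 * L) ≤ P - 2 * Tl := by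
    have h1 : c / 2 / Real.log z ^ 8 ≤ P - 2 * Tl := by
      have : c / Real.log z ^ 8 = c / 2 / Real.log z ^ 8 + c / 2 / Real.log z ^ 8 := by ring
      linarith
    refine le_trans ?_ h1
    have h2 : c / 2 / (B * l) ^ 8 ≤ c / 2 / Real.log z ^ 8 :=
      div_le_div_of_nonneg_left (by positivity) (by positivity) hlz8
    refine le_trans ?_ h2
    have h3 := (div_le_iff₀ (by positivity)).1 c7
    rw [div_div, div_le_div_iff₀ (by positivity) (by positivity)]
    have h4 : 2 * (2 / (J ^ 2 / 4)) = 16 / J ^ 2 := by ring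
    rw [h4]
    rw [div_mul_eq_mul_div, div_le_iff₀ (by positivity)]
    linarith only [h3]
  have hPT0 : 0 ≤ P - 2 * Tl := le_trans (by positivity) hPT
  have hmain : 2 * (x * y) / L ≤ Th ω x * Th ω y * (P - 2 * Tl) := by
    have h1 : J / 2 * x * (J / 2 * y) ≤ Th ω x * Th ω y :=
      mul_le_mul hTx1 hTy1 (by positivity) hTx0
    calc 2 * (x * y) / L = J / 2 * x * (J / 2 * y) * (2 * (2 / (J ^ 2 / 4)) / (2 * L)) := by
          field_simp
          ring
      _ ≤ J / 2 * x * (J / 2 * y) * (P - 2 * Tl) := mul_le_mul_of_nonneg_left hPT (by positivity)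
      _ ≤ Th ω x * Th ω y * (P - 2 * Tl) := mul_le_mul_of_nonneg_right h1 hPT0
  have hfin : x * y / L ≤ Vz z * rS ω x y (lz z) v := by
    have h1 : x * y / (2 * L ^ 2) + x * y / (2 * L ^ 2) ≤ x * y / L := by
      rw [← add_div, div_le_div_iff₀ (by positivity) (by positivity)]
      have h4 : L ≤ L ^ 2 := le_self_pow₀ (by linarith) (by norm_num)
      have h5 := mul_le_mul_of_nonneg_left h4 (show 0 ≤ x * y by positivity)
      linarith
    have h2 : 2 * (x * y) / L = x * y / L + x * y / L := by ring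
    linarith
  have hpos : 0 < x * y / L := by positivity
  have hV0 := Vz_pos_APZ z
  have hV1 := Vz_le z
  have hrS : 0 < rS ω x y (lz z) v := by
    by_contra h
    push Not at h
    have h5 := mul_nonpos_of_nonneg_of_nonpos hV0.le h
    linarith
  have h6 := mul_le_mul_of_nonneg_right hV1 hrS.le
  linarith

end Pool.Agent.Helper36.SK
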